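import Mathlib
import Pool.Agent.helper23_Chud.Descent

/-!
# Chudnovsky's conjecture for closed points over arbitrary fields
-/

set_option autoImplicit false

universe u

namespace Pool.Agent.Results.MP_3eef69_ag.ClosedPoints

open MvPolynomial Filter Topology Pool.Agent.Chud Pool.Agent.H737R3 Pool.Agent.helper23_Chud

section defs

variable {K : Type u} [Field K] {n : ℕ}

/-- The homogeneous ideal of the point `v` of projective `n`-space with homogeneous coordinates in
the separable closure of `K`: the ideal of `K[x_0, …, x_n]` generated by the forms over `K` which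
vanish at `v`. -/
noncomputable def ptI (v : Fin (n + 1) → SeparableClosure K) :
    Ideal (MvPolynomial (Fin (n + 1)) K) :=
  Ideal.span {F | (∃ d : ℕ, F.IsHomogeneous d) ∧ aeval v F = 0}

/-- `P` is the ideal of a point with homogeneous coordinates in the separable closure of `K`
(a closed point of projective `n`-space over `K` with separable residue field). -/
def IsSepPoint (P : Ideal (MvPolynomial (Fin (n + 1)) K)) : Prop :=
  ∃ v : Fin (n + 1) → SeparableClosure K, v ≠ 0 ∧ P = ptI v

/-- `P` is (the ideal of) a closed point of projective `n`-space over `K`: a homogeneous prime ideal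
which does not contain all the variables, and which is maximal among these ideals. -/
def IsClosedPoint (P : Ideal (MvPolynomial (Fin (n + 1)) K)) : Prop :=
  (P.IsPrime ∧ (∀ F ∈ P, ∀ d : ℕ, homogeneousComponent d F ∈ P) ∧ ∃ i, X i ∉ P) ∧
    ∀ Q : Ideal (MvPolynomial (Fin (n + 1)) K), Q.IsPrime →
      (∀ F ∈ Q, ∀ d : ℕ, homogeneousComponent d F ∈ Q) → (∃ i, X i ∉ Q) → P ≤ Q → Q = P

/-- The symbolic power `P^(m)` of a homogeneous prime ideal `P`: the ideal generated by the forms
`F` such that `u * F` belongs to `P ^ m` for some form `u` which does not belong to `P`. -/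
noncomputable def symb (P : Ideal (MvPolynomial (Fin (n + 1)) K)) (m : ℕ) :
    Ideal (MvPolynomial (Fin (n + 1)) K) :=
  Ideal.span {F | (∃ d : ℕ, F.IsHomogeneous d) ∧
    ∃ u : MvPolynomial (Fin (n + 1)) K, (∃ e : ℕ, u.IsHomogeneous e) ∧ u ∉ P ∧ u * F ∈ P ^ m}

end defs

section

variable {K : Type u} [Field K] {n : ℕ}

theorem ptI_le (v : Fin (n + 1) → SeparableClosure K) (hv : v ≠ 0) :
    ptI v ≤ Ideal.comap (MvPolynomial.map (algebraMap K (SeparableClosure K))) (linI v) := by
  unfold ptI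
  rw [Ideal.span_le]
  rintro F ⟨⟨d, hF⟩, hF0⟩
  rw [SetLike.mem_coe, Ideal.mem_comap]
  have h1 : MvPolynomial.map (algebraMap K (SeparableClosure K)) F ∈ mI v ^ 1 := by
    rw [pow_one]
    change eval v (MvPolynomial.map (algebraMap K (SeparableClosure K)) F) = 0
    rw [eval_map]
    exact hF0
  have := mem_linI_pow (hF.map _) hv h1
  rwa [pow_one] at this

theorem mem_ptI_iff (v : Fin (n + 1) → SeparableClosure K) (hv : v ≠ 0)
    {F : MvPolynomial (Fin (n + 1)) K} {d : ℕ} (hF : F.IsHomogeneous d) :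
    F ∈ ptI v ↔ aeval v F = 0 := by
  constructor
  · intro h
    have h1 := linI_le_mI v (ptI_le v hv h)
    change eval v (MvPolynomial.map (algebraMap K (SeparableClosure K)) F) = 0 at h1
    rw [eval_map] at h1
    exact h1
  · intro h
    exact Ideal.subset_span ⟨⟨d, hF⟩, h⟩

theorem symb_le (v : Fin (n + 1) → SeparableClosure K) (hv : v ≠ 0) (m : ℕ) :
    symb (ptI v) m ≤ Ideal.comap (MvPolynomial.map (algebraMap K (SeparableClosure K))) (linI v ^ m) := by
  conv_lhs => unfold symb
  rw [Ideal.span_le]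
  rintro F ⟨⟨d, hF⟩, u, ⟨e, hu⟩, huP, huF⟩
  rw [SetLike.mem_coe, Ideal.mem_comap]
  by_cases hF0 : F = 0
  · rw [hF0, map_zero]
    exact Ideal.zero_mem _
  have hinj := map_injective (σ := Fin (n + 1)) _ (algebraMap K (SeparableClosure K)).injective
  have hFm0 : MvPolynomial.map (algebraMap K (SeparableClosure K)) F ≠ 0 := by
    intro h
    exact hF0 (hinj (by rw [h, map_zero]))
  have hu0 : aeval v u ≠ 0 := fun h => huP ((mem_ptI_iff v hv hu).2 h)
  have hum0 : MvPolynomial.map (algebraMap K (SeparableClosure K)) u ≠ 0 := by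
    intro h
    apply hu0
    have h1 : eval v (MvPolynomial.map (algebraMap K (SeparableClosure K)) u) = 0 := by rw [h, map_zero]
    rw [eval_map] at h1
    exact h1
  have h1 : MvPolynomial.map (algebraMap K (SeparableClosure K)) (u * F) ∈ mI v ^ m := by
    have h2 : ptI v ^ m ≤ Ideal.comap (MvPolynomial.map (algebraMap K (SeparableClosure K))) (mI v ^ m) := by
      refine le_trans (Ideal.pow_right_mono (ptI_le v hv) m) ?_
      refine le_trans (Ideal.le_comap_pow _ m) ?_
      exact Ideal.comap_mono (Ideal.pow_right_mono (linI_le_mI v) m)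
    exact h2 huF
  rw [map_mul, mem_mI_pow_iff v (mul_ne_zero hum0 hFm0), mu_mul v hum0 hFm0] at h1
  have h3 : mu v (MvPolynomial.map (algebraMap K (SeparableClosure K)) u) = 0 := by
    by_contra hne
    have h4 := (mu_pos_iff v hum0).1 (Nat.pos_of_ne_zero hne)
    rw [eval_map] at h4
    exact hu0 h4
  rw [h3, zero_add] at h1
  exact mem_linI_pow (hF.map _) hv ((mem_mI_pow_iff v hFm0 m).2 h1)

theorem component_map {R S : Type*} [CommRing R] [CommRing S] (φ : R →+* S) {σ : Type*} (d : ℕ)
    (F : MvPolynomial σ R) : homogeneousComponent d (MvPolynomial.map φ F) = MvPolynomial.map φ (homogeneousComponent d F) := by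
  classical
  ext c
  rw [coeff_homogeneousComponent, coeff_map, coeff_map, coeff_homogeneousComponent]
  split_ifs <;> simp

/-- the order of vanishing of the components of an element of a symbolic power -/
theorem component_order (v : Fin (n + 1) → SeparableClosure K) (hv : v ≠ 0) (m : ℕ)
    {F : MvPolynomial (Fin (n + 1)) K} (hF : F ∈ symb (ptI v) m) (d : ℕ) :
    MvPolynomial.map (algebraMap K (SeparableClosure K)) (homogeneousComponent d F) ∈ mI v ^ m := by
  have h1 := symb_le v hv m hF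
  rw [Ideal.mem_comap] at h1
  have h2 := component_mem v m h1 d
  rw [component_map] at h2
  exact Ideal.pow_right_mono (linI_le_mI v) m h2

theorem one_notMem_ptI (v : Fin (n + 1) → SeparableClosure K) (hv : v ≠ 0) :
    (1 : MvPolynomial (Fin (n + 1)) K) ∉ ptI v := by
  rw [mem_ptI_iff v hv (isHomogeneous_one _ _), map_one]
  exact one_ne_zero

theorem symb_mul_le (v : Fin (n + 1) → SeparableClosure K) (hv : v ≠ 0) (a b : ℕ) :
    symb (ptI v) a * symb (ptI v) b ≤ symb (ptI v) (a + b) := by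
  conv_lhs => unfold symb
  rw [Ideal.span_mul_span', Ideal.span_le]
  rintro _ ⟨F, ⟨⟨d, hF⟩, u, ⟨e, hu⟩, huP, huF⟩, G, ⟨⟨d', hG⟩, w, ⟨e', hw⟩, hwP, hwG⟩, rfl⟩
  apply Ideal.subset_span
  refine ⟨⟨d + d', hF.mul hG⟩, u * w, ⟨e + e', hu.mul hw⟩, ?_, ?_⟩
  · rw [mem_ptI_iff v hv (hu.mul hw), map_mul]
    rw [mem_ptI_iff v hv hu] at huP
    rw [mem_ptI_iff v hv hw] at hwP
    exact mul_ne_zero huP hwP
  · have h1 : u * w * ((fun x1 x2 => x1 * x2) F G) = (u * F) * (w * G) := by
      change u * w * (F * G) = _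
      ring
    rw [h1, pow_add]
    exact Ideal.mul_mem_mul huF hwG

theorem pow_le_symb (v : Fin (n + 1) → SeparableClosure K) (hv : v ≠ 0) (m : ℕ) :
    ptI v ^ m ≤ symb (ptI v) m := by
  induction m with
  | zero =>
    rw [pow_zero, Ideal.one_eq_top, top_le_iff, Ideal.eq_top_iff_one]
    apply Ideal.subset_span
    refine ⟨⟨0, isHomogeneous_one _ _⟩, 1, ⟨0, isHomogeneous_one _ _⟩, one_notMem_ptI v hv, ?_⟩
    rw [pow_zero, Ideal.one_eq_top]
    trivial
  | succ m ih =>
    rw [pow_succ]
    refine le_trans (Ideal.mul_mono ih ?_) (symb_mul_le v hv m 1)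
    conv_lhs => unfold ptI
    rw [Ideal.span_le]
    rintro F ⟨⟨d, hF⟩, hF0⟩
    apply Ideal.subset_span
    refine ⟨⟨d, hF⟩, 1, ⟨0, isHomogeneous_one _ _⟩, one_notMem_ptI v hv, ?_⟩
    rw [pow_one, one_mul, mem_ptI_iff v hv hF]
    exact hF0

/-- a nonzero form over `K` which vanishes at a given point -/
theorem exists_form_pt (hn : 1 ≤ n) (v : Fin (n + 1) → SeparableClosure K) :
    ∃ (H : MvPolynomial (Fin (n + 1)) K) (d : ℕ), H ≠ 0 ∧ H.IsHomogeneous d ∧ aeval v H = 0 := by
  classical
  by_cases h0 : v 0 = 0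
  · exact ⟨X 0, 1, X_ne_zero 0, isHomogeneous_X K 0, by rw [aeval_X, h0]⟩
  let j : Fin (n + 1) := ⟨1, by omega⟩
  have hj : j ≠ 0 := by
    intro h
    have := congrArg Fin.val h
    simp [j] at this
  have hint : IsIntegral K (v j / v 0) :=
    (Algebra.IsAlgebraic.isAlgebraic (R := K) (v j / v 0)).isIntegral
  set p := minpoly K (v j / v 0) with hp
  set D := p.natDegree with hD
  have hp1 : p.coeff D = 1 := minpoly.monic hint
  set H : MvPolynomial (Fin (n + 1)) K :=
    ∑ i ∈ Finset.range (D + 1), C (p.coeff i) * (X j ^ i * X 0 ^ (D - i)) with hH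
  refine ⟨H, D, ?_, ?_, ?_⟩
  · intro h
    have h1 : eval (fun i => if i = j then (1 : K) else 0) H = 1 := by
      rw [hH, map_sum, Finset.sum_eq_single D]
      · simp [hp1]
      · intro b hb hbD
        have : D - b ≠ 0 := by
          have := Finset.mem_range.1 hb
          omega
        simp [this, hj.symm]
      · intro hcon
        exact absurd (Finset.mem_range.2 (Nat.lt_succ_self D)) hcon
    rw [h, map_zero] at h1
    exact zero_ne_one h1
  · rw [hH]
    apply IsHomogeneous.sum
    intro i hi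
    have h1 : i + (D - i) = D := by
      have := Finset.mem_range.1 hi
      omega
    have h2 := (isHomogeneous_C (Fin (n + 1)) (p.coeff i)).mul
      (((isHomogeneous_X K j).pow i).mul ((isHomogeneous_X K (0 : Fin (n + 1))).pow (D - i)))
    rwa [one_mul, one_mul, zero_add, h1] at h2
  · have h1 : aeval v H = v 0 ^ D * Polynomial.aeval (v j / v 0) p := by
      rw [hH, map_sum, Polynomial.aeval_eq_sum_range, Finset.mul_sum]
      apply Finset.sum_congr rfl
      intro i hi
      have h2 : i ≤ D := by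
        have := Finset.mem_range.1 hi
        omega
      rw [map_mul, map_mul, map_pow, map_pow, aeval_X, aeval_X, aeval_C, Algebra.smul_def, div_pow]
      have h3 : v 0 ^ D = v 0 ^ i * v 0 ^ (D - i) := by
        rw [← pow_add]
        congr 1
        omega
      rw [h3]
      field_simp
    rw [h1, minpoly.aeval, mul_zero]

/-- there is a nonzero form over `K` which vanishes at finitely many given points -/
theorem exists_form (hn : 1 ≤ n) (V : Finset (Fin (n + 1) → SeparableClosure K)) :
    ∃ (H : MvPolynomial (Fin (n + 1)) K) (d : ℕ), H ≠ 0 ∧ H.IsHomogeneous d ∧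
      ∀ v ∈ V, aeval v H = 0 := by
  classical
  choose H d hH0 hH hHv using fun v : Fin (n + 1) → SeparableClosure K => exists_form_pt hn v
  refine ⟨∏ v ∈ V, H v, ∑ v ∈ V, d v, Finset.prod_ne_zero_iff.2 fun v _ => hH0 v,
    IsHomogeneous.prod V _ _ fun v _ => hH v, ?_⟩
  intro v hv
  rw [map_prod]
  exact Finset.prod_eq_zero hv (hHv v)

theorem alpha_le {J : Ideal (MvPolynomial (Fin (n + 1)) K)} {F : MvPolynomial (Fin (n + 1)) K}
    (hF : F ∈ J) (hF0 : F ≠ 0) : alpha J ≤ F.totalDegree :=
  Nat.sInf_le ⟨F, hF, hF0, rfl⟩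

theorem alpha_spec {J : Ideal (MvPolynomial (Fin (n + 1)) K)} (hJ : ∃ F ∈ J, F ≠ 0) :
    ∃ F ∈ J, F ≠ 0 ∧ F.totalDegree = alpha J := by
  have hne : {d | ∃ F ∈ J, F ≠ 0 ∧ F.totalDegree = d}.Nonempty := by
    obtain ⟨F, hF, hF0⟩ := hJ
    exact ⟨_, F, hF, hF0, rfl⟩
  exact Nat.sInf_mem hne

theorem mem_iInf {Z : Finset (Ideal (MvPolynomial (Fin (n + 1)) K))}
    (J : Ideal (MvPolynomial (Fin (n + 1)) K) → Ideal (MvPolynomial (Fin (n + 1)) K))
    (F : MvPolynomial (Fin (n + 1)) K) : F ∈ (⨅ P ∈ Z, J P) ↔ ∀ P ∈ Z, F ∈ J P := by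
  simp only [Submodule.mem_iInf]

/-- the main inequality -/
theorem main (hn : 1 ≤ n) (Z : Finset (Ideal (MvPolynomial (Fin (n + 1)) K))) (hZ : Z.Nonempty)
    (hpt : ∀ P ∈ Z, IsSepPoint P) (m : ℕ) (F : MvPolynomial (Fin (n + 1)) K) (hF0 : F ≠ 0)
    (hF : ∀ P ∈ Z, F ∈ symb P m) :
    m * (alpha (⨅ P ∈ Z, P) + n - 1) ≤ F.totalDegree * n := by
  classical
  choose! v hv0 hv using hpt
  refine chud_sep (K := K) (SeparableClosure K) hn (v '' (Z : Set _)) (Z.finite_toSet.image v)
    (hZ.to_set.image v) ?_ _ m F.totalDegree ?_ (homogeneousComponent F.totalDegree F)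
    (top_component hF0) (homogeneousComponent_isHomogeneous _ _) ?_
  · rintro _ ⟨P, hP, rfl⟩
    exact hv0 P hP
  · intro G d hG0 hG hGv
    have h1 : G ∈ (⨅ P ∈ Z, P) := by
      rw [mem_iInf (fun P => P)]
      intro P hP
      have h2 := hGv (v P) ⟨P, hP, rfl⟩
      rw [hv P hP, mem_ptI_iff (v P) (hv0 P hP) hG]
      exact h2
    have h2 := alpha_le h1 hG0
    rwa [hG.totalDegree hG0] at h2
  · rintro _ ⟨P, hP, rfl⟩
    have h1 := hF P hP
    rw [hv P hP] at h1
    exact component_order (v P) (hv0 P hP) m h1 _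

/-- the restriction of polynomials to the line through `v` -/
noncomputable def lineMap (v : Fin (n + 1) → SeparableClosure K) :
    MvPolynomial (Fin (n + 1)) K →+* Polynomial (SeparableClosure K) :=
  eval₂Hom (Polynomial.C.comp (algebraMap K (SeparableClosure K)))
    (fun i => Polynomial.C (v i) * Polynomial.X)

theorem lineMap_form (v : Fin (n + 1) → SeparableClosure K) {F : MvPolynomial (Fin (n + 1)) K}
    {d : ℕ} (hF : F.IsHomogeneous d) :
    lineMap v F = Polynomial.C (aeval v F) * Polynomial.X ^ d := by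
  unfold lineMap
  rw [coe_eval₂Hom, eval₂_eq', aeval_eq_eval₂Hom, coe_eval₂Hom, eval₂_eq', map_sum, Finset.sum_mul]
  apply Finset.sum_congr rfl
  intro c hc
  rw [map_mul, map_prod, mul_assoc]
  congr 1
  have h3 : c.degree = d := by
    have := hF (mem_support_iff.1 hc)
    rwa [Finsupp.degree_eq_weight_one]
  rw [← h3, Finsupp.degree_eq_sum, ← Finset.prod_pow_eq_pow_sum, ← Finset.prod_mul_distrib]
  apply Finset.prod_congr rfl
  intro i _
  rw [mul_pow, map_pow]

theorem lineMap_zero (v : Fin (n + 1) → SeparableClosure K) {F : MvPolynomial (Fin (n + 1)) K}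
    (h : lineMap v F = 0) (d : ℕ) : aeval v (homogeneousComponent d F) = 0 := by
  have h2 : lineMap v F = ∑ i ∈ Finset.range (F.totalDegree + 1),
      Polynomial.C (aeval v (homogeneousComponent i F)) * Polynomial.X ^ i := by
    conv_lhs => rw [← sum_homogeneousComponent F]
    rw [map_sum]
    apply Finset.sum_congr rfl
    intro i _
    exact lineMap_form v (homogeneousComponent_isHomogeneous i F)
  rw [h] at h2
  by_cases hd : d < F.totalDegree + 1
  · have h3 := congrArg (fun q => Polynomial.coeff q d) h2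
    simp only [Polynomial.coeff_zero, Polynomial.finsetSum_coeff, Polynomial.coeff_C_mul,
      Polynomial.coeff_X_pow, mul_ite, mul_one, mul_zero] at h3
    rw [Finset.sum_ite_eq] at h3
    rw [if_pos (Finset.mem_range.2 hd)] at h3
    exact h3.symm
  · rw [homogeneousComponent_eq_zero d F (by omega), map_zero]

theorem ptI_eq_ker (v : Fin (n + 1) → SeparableClosure K) : ptI v = RingHom.ker (lineMap v) := by
  apply le_antisymm
  · unfold ptI
    rw [Ideal.span_le]
    rintro F ⟨⟨d, hF⟩, hF0⟩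
    rw [SetLike.mem_coe, RingHom.mem_ker, lineMap_form v hF, hF0, map_zero, zero_mul]
  · intro F hF
    rw [RingHom.mem_ker] at hF
    rw [← sum_homogeneousComponent F]
    apply Ideal.sum_mem
    intro i _
    exact Ideal.subset_span ⟨⟨i, homogeneousComponent_isHomogeneous i F⟩, lineMap_zero v hF i⟩

theorem ptI_prime (v : Fin (n + 1) → SeparableClosure K) : (ptI v).IsPrime := by
  rw [ptI_eq_ker]
  exact RingHom.ker_isPrime _

theorem ptI_homog (v : Fin (n + 1) → SeparableClosure K) {F : MvPolynomial (Fin (n + 1)) K}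
    (hF : F ∈ ptI v) (d : ℕ) : homogeneousComponent d F ∈ ptI v := by
  have h1 : lineMap v F = 0 := by
    rw [ptI_eq_ker] at hF
    exact hF
  exact Ideal.subset_span ⟨⟨d, homogeneousComponent_isHomogeneous d F⟩, lineMap_zero v h1 d⟩

/-- over a perfect field all closed points are points with coordinates in the separable closure -/
theorem sepPoint_of_closed [PerfectField K] {P : Ideal (MvPolynomial (Fin (n + 1)) K)}
    (hP : IsClosedPoint P) : IsSepPoint P := by
  classical
  obtain ⟨⟨hPp, hPh, i, hi⟩, hmax⟩ := hP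
  -- the ideal `P + (X_i - 1)` is proper
  have hprop : P ⊔ Ideal.span {X i - 1} ≠ ⊤ := by
    let A := MvPolynomial (Fin (n + 1)) K ⧸ P
    let Ω := FractionRing A
    let x : Fin (n + 1) → Ω := fun j => algebraMap A Ω (Ideal.Quotient.mk P (X j))
    have hx : x i ≠ 0 := by
      intro h
      have h1 : (Ideal.Quotient.mk P (X i)) = 0 := by
        have := IsFractionRing.injective A Ω (h.trans (map_zero (algebraMap A Ω)).symm)
        exact this
      exact hi (Ideal.Quotient.eq_zero_iff_mem.1 h1)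
    let ρ : MvPolynomial (Fin (n + 1)) K →+* Ω :=
      eval₂Hom ((algebraMap A Ω).comp ((Ideal.Quotient.mk P).comp C)) (fun j => x j / x i)
    have hρ : ∀ (F : MvPolynomial (Fin (n + 1)) K) (d : ℕ), F.IsHomogeneous d →
        ρ F * x i ^ d = algebraMap A Ω (Ideal.Quotient.mk P F) := by
      intro F d hF
      have h0 : algebraMap A Ω (Ideal.Quotient.mk P F) =
          eval₂ ((algebraMap A Ω).comp ((Ideal.Quotient.mk P).comp C)) x F := by
        have h1 : (algebraMap A Ω).comp (Ideal.Quotient.mk P) =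
            eval₂Hom ((algebraMap A Ω).comp ((Ideal.Quotient.mk P).comp C)) x := by
          apply MvPolynomial.ringHom_ext
          · intro r
            simp
          · intro j
            simp [x]
        exact DFunLike.congr_fun h1 F
      rw [h0]
      change eval₂ _ _ F * _ = _
      rw [eval₂_eq', eval₂_eq', Finset.sum_mul]
      apply Finset.sum_congr rfl
      intro c hc
      rw [mul_assoc]
      congr 1
      have h3 : c.degree = d := by
        have := hF (mem_support_iff.1 hc)
        rwa [Finsupp.degree_eq_weight_one]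
      rw [← h3, Finsupp.degree_eq_sum, ← Finset.prod_pow_eq_pow_sum, ← Finset.prod_mul_distrib]
      apply Finset.prod_congr rfl
      intro j _
      rw [← mul_pow, div_mul_cancel₀ _ hx]
    have hle : P ⊔ Ideal.span {X i - 1} ≤ RingHom.ker ρ := by
      rw [sup_le_iff]
      constructor
      · intro F hF
        rw [RingHom.mem_ker, ← sum_homogeneousComponent F, map_sum]
        apply Finset.sum_eq_zero
        intro d _
        have h1 := hρ _ d (homogeneousComponent_isHomogeneous d F)
        rw [Ideal.Quotient.eq_zero_iff_mem.2 (hPh F hF d), map_zero] at h1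
        exact (mul_eq_zero.1 h1).resolve_right (pow_ne_zero _ hx)
      · rw [Ideal.span_le]
        rintro _ rfl
        rw [SetLike.mem_coe, RingHom.mem_ker, map_sub, map_one]
        change eval₂ _ _ (X i) - 1 = 0
        rw [eval₂_X, div_self hx, sub_self]
    intro h
    rw [h, top_le_iff] at hle
    exact RingHom.ker_ne_top ρ hle
  obtain ⟨M, hM, hPM⟩ := Ideal.exists_le_maximal _ hprop
  let B := MvPolynomial (Fin (n + 1)) K ⧸ M
  let _ : Field B := Ideal.Quotient.field M
  have hfin : Module.Finite K B := finite_of_finite_type_of_isJacobsonRing K B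
  have halg : Algebra.IsAlgebraic K B := Algebra.IsAlgebraic.of_finite K B
  have hsep : Algebra.IsSeparable K B := inferInstance
  let φ : B →ₐ[K] SeparableClosure K := IsSepClosed.lift
  let v : Fin (n + 1) → SeparableClosure K := fun j => φ (Ideal.Quotient.mk M (X j))
  have hv : ∀ F : MvPolynomial (Fin (n + 1)) K, aeval v F = φ (Ideal.Quotient.mk M F) := by
    intro F
    have h1 : (aeval v : MvPolynomial (Fin (n + 1)) K →ₐ[K] SeparableClosure K) =
        φ.comp (Ideal.Quotient.mkₐ K M) := by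
      apply MvPolynomial.algHom_ext
      intro j
      rw [aeval_X]
      rfl
    exact DFunLike.congr_fun h1 F
  have hvi : v i = 1 := by
    have h1 : X i - 1 ∈ M := hPM (Ideal.mem_sup_right (Ideal.subset_span rfl))
    have h2 : Ideal.Quotient.mk M (X i) = Ideal.Quotient.mk M 1 := Ideal.Quotient.eq.2 h1
    change φ (Ideal.Quotient.mk M (X i)) = 1
    rw [h2, map_one, map_one]
  have hv0 : v ≠ 0 := by
    intro h
    rw [h] at hvi
    exact zero_ne_one hvi
  refine ⟨v, hv0, ?_⟩
  symm
  apply hmax (ptI v) (ptI_prime v) (fun F hF d => ptI_homog v hF d)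
  · refine ⟨i, ?_⟩
    rw [mem_ptI_iff v hv0 (isHomogeneous_X K i), aeval_X, hvi]
    exact one_ne_zero
  · intro F hF
    rw [← sum_homogeneousComponent F]
    apply Ideal.sum_mem
    intro d _
    apply Ideal.subset_span
    refine ⟨⟨d, homogeneousComponent_isHomogeneous d F⟩, ?_⟩
    rw [hv, Ideal.Quotient.eq_zero_iff_mem.2 (hPM (Ideal.mem_sup_left (hPh F hF d))), map_zero]

/-- there is a nonzero element in every intersection of symbolic powers -/
theorem exists_mem (hn : 1 ≤ n) (Z : Finset (Ideal (MvPolynomial (Fin (n + 1)) K)))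
    (hpt : ∀ P ∈ Z, IsSepPoint P) (m : ℕ) : ∃ F ∈ (⨅ P ∈ Z, P ^ m), F ≠ 0 := by
  classical
  choose! v hv0 hv using hpt
  obtain ⟨H, d, hH0, hH, hHv⟩ := exists_form hn (Z.image v)
  refine ⟨H ^ m, ?_, pow_ne_zero _ hH0⟩
  rw [mem_iInf (fun P => P ^ m)]
  intro P hP
  apply Ideal.pow_mem_pow
  rw [hv P hP, mem_ptI_iff (v P) (hv0 P hP) hH]
  exact hHv _ (Finset.mem_image_of_mem _ hP)

theorem pow_le (Z : Finset (Ideal (MvPolynomial (Fin (n + 1)) K)))
    (hpt : ∀ P ∈ Z, IsSepPoint P) (m : ℕ) : (⨅ P ∈ Z, P ^ m) ≤ ⨅ P ∈ Z, symb P m := by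
  intro F hF
  rw [mem_iInf (fun P => symb P m)]
  rw [mem_iInf (fun P => P ^ m)] at hF
  intro P hP
  obtain ⟨v, hv0, hv⟩ := hpt P hP
  have := hF P hP
  rw [hv] at this ⊢
  exact pow_le_symb v hv0 m this

theorem alpha_add_le (hn : 1 ≤ n) (Z : Finset (Ideal (MvPolynomial (Fin (n + 1)) K)))
    (hpt : ∀ P ∈ Z, IsSepPoint P) (a b : ℕ) :
    alpha (⨅ P ∈ Z, symb P (a + b)) ≤ alpha (⨅ P ∈ Z, symb P a) + alpha (⨅ P ∈ Z, symb P b) := by
  have hex : ∀ m, ∃ F ∈ (⨅ P ∈ Z, symb P m), F ≠ 0 := by
    intro m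
    obtain ⟨F, hF, hF0⟩ := exists_mem hn Z hpt m
    exact ⟨F, pow_le Z hpt m hF, hF0⟩
  obtain ⟨F, hF, hF0, hFd⟩ := alpha_spec (hex a)
  obtain ⟨G, hG, hG0, hGd⟩ := alpha_spec (hex b)
  rw [mem_iInf (fun P => symb P a)] at hF
  rw [mem_iInf (fun P => symb P b)] at hG
  have h1 : F * G ∈ (⨅ P ∈ Z, symb P (a + b)) := by
    rw [mem_iInf (fun P => symb P (a + b))]
    intro P hP
    obtain ⟨v, hv0, hv⟩ := hpt P hP
    have hF' := hF P hP
    have hG' := hG P hP
    rw [hv] at hF' hG' ⊢
    exact symb_mul_le v hv0 a b (Ideal.mul_mem_mul hF' hG')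
  calc alpha (⨅ P ∈ Z, symb P (a + b)) ≤ (F * G).totalDegree :=
        alpha_le h1 (mul_ne_zero hF0 hG0)
    _ ≤ F.totalDegree + G.totalDegree := totalDegree_mul F G
    _ = _ := by rw [hFd, hGd]

end

/-- **Chudnovsky's conjecture for closed points over an arbitrary field.** Let `K` be a field,
`n ≥ 1`, and let `Z` be a nonempty finite set of points of projective `n`-space over `K`, given by
their homogeneous prime ideals in `K[x_0, …, x_n]`: either `K` is perfect and `Z` consists of
arbitrary closed points, or `K` is arbitrary and the points of `Z` have coordinates in the separable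
closure of `K` (for example in `K`). Let `I` be the ideal of `Z` and `I^(k)` its symbolic powers.
Then the Waldschmidt constant `c = lim α(I^(k))/k` exists, it is at most all the `α(I^(k))/k`, and
`c ≥ (α(I) + n - 1)/n`. The same lower bound holds for the initial degrees of the intersections of
the ordinary powers of the prime ideals. -/
theorem result (K : Type u) [Field K] (n : ℕ) (hn : 1 ≤ n)
    (Z : Finset (Ideal (MvPolynomial (Fin (n + 1)) K))) (hZ : Z.Nonempty)
    (hpt : (PerfectField K ∧ ∀ P ∈ Z, IsClosedPoint P) ∨ ∀ P ∈ Z, IsSepPoint P) :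
    (∃ c : ℝ, Tendsto (fun k : ℕ => (alpha (⨅ P ∈ Z, symb P k) : ℝ) / k) atTop (𝓝 c) ∧
      (∀ k : ℕ, 1 ≤ k → c ≤ (alpha (⨅ P ∈ Z, symb P k) : ℝ) / k) ∧
      ((alpha (⨅ P ∈ Z, P) : ℝ) + n - 1) / n ≤ c) ∧
    ∀ k : ℕ, 1 ≤ k →
      ((alpha (⨅ P ∈ Z, P) : ℝ) + n - 1) / n ≤ (alpha (⨅ P ∈ Z, P ^ k) : ℝ) / k := by
  have hpt' : ∀ P ∈ Z, IsSepPoint P := by
    rcases hpt with ⟨hK, h⟩ | h
    · exact fun P hP => sepPoint_of_closed (h P hP)
    · exact h
  have hsub : Subadditive (fun k : ℕ => (alpha (⨅ P ∈ Z, symb P k) : ℝ)) := by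
    intro a b
    beta_reduce
    exact_mod_cast alpha_add_le hn Z hpt' a b
  have hbdd : BddBelow (Set.range fun k : ℕ => (alpha (⨅ P ∈ Z, symb P k) : ℝ) / k) := by
    refine ⟨0, ?_⟩
    rintro _ ⟨r, rfl⟩
    positivity
  have key : ∀ k : ℕ, 1 ≤ k → ∀ F : MvPolynomial (Fin (n + 1)) K, F ≠ 0 →
      F ∈ (⨅ P ∈ Z, symb P k) →
      ((alpha (⨅ P ∈ Z, P) : ℝ) + n - 1) / n ≤ (F.totalDegree : ℝ) / k := by
    intro k hk F hF0 hF
    rw [mem_iInf (fun P => symb P k)] at hF
    have h1 := main hn Z hZ hpt' k F hF0 hF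
    have h2 : k * (alpha (⨅ P ∈ Z, P) + n - 1) ≤ F.totalDegree * (1 + n - 1) := by
      have h3 : 1 + n - 1 = n := by omega
      rw [h3]
      exact h1
    have h4 := real_of_nat hn le_rfl hk h2
    have h5 : ((1 : ℕ) : ℝ) + (n : ℝ) - 1 = n := by
      push_cast
      ring
    rwa [h5] at h4
  refine ⟨⟨hsub.lim, hsub.tendsto_lim hbdd, fun k hk => hsub.lim_le_div hbdd (by omega), ?_⟩, ?_⟩
  · refine ge_of_tendsto (hsub.tendsto_lim hbdd) ?_
    filter_upwards [eventually_ge_atTop 1] with k hk
    obtain ⟨G, hG, hG0⟩ := exists_mem hn Z hpt' k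
    obtain ⟨F, hF, hF0, hFd⟩ := alpha_spec ⟨G, pow_le Z hpt' k hG, hG0⟩
    rw [← hFd]
    exact key k hk F hF0 hF
  · intro k hk
    obtain ⟨F, hF, hF0, hFd⟩ := alpha_spec (exists_mem hn Z hpt' k)
    rw [← hFd]
    exact key k hk F hF0 (pow_le Z hpt' k hF)

end Pool.Agent.Results.MP_3eef69_ag.ClosedPoints
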